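import Mathlib
import Pool.Agent.N245.SG.Main

/-!
For `G = (ℤ/mℤ)^ℕ` (every `m ≥ 1`; the question is the case `m = 4`) a set of nontrivial characters
is subgaussian if and only if it is a finite union of quasi-independent sets.
-/

set_option autoImplicit false

open MeasureTheory

namespace Pool.Agent.Results.MP_080bf7_an.SubgaussianUnion

/-- The compact group `G = (ℤ/mℤ)^ℕ` (product topology, product `σ`-algebra). -/
abbrev G (m : ℕ) : Type := ℕ → ZMod m

/-- Its dual group, the finitely supported sequences with entries in `ℤ/mℤ`. -/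
abbrev Dual (m : ℕ) : Type := ℕ →₀ ZMod m

/-- The normalised Haar measure of `G`. -/
noncomputable def haar (m : ℕ) [NeZero m] : Measure (G m) := Measure.addHaarMeasure ⊤

/-- The character `γ_n(t) = exp(2πi ∑ t_k n_k / m)`. -/
noncomputable def chr (m : ℕ) (n : Dual m) (t : G m) : ℂ :=
  Complex.exp (2 * Real.pi * Complex.I * ((∑ k ∈ n.support, (t k).val * (n k).val : ℕ) : ℂ) / m)

/-- `‖f‖_{ψ₂} = inf {c > 0 : ∫ exp(|f|² / c²) ≤ e}`, the integral with respect to the normalised Haar
measure. -/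
noncomputable def psi2 (m : ℕ) [NeZero m] (f : G m → ℂ) : ℝ :=
  sInf {c : ℝ | 0 < c ∧ ∫ t, Real.exp (‖f t‖ ^ 2 / c ^ 2) ∂(haar m) ≤ Real.exp 1}

/-- `Λ` is subgaussian: for some constant `C`, `‖∑ a_n γ_n‖_{ψ₂} ≤ C (∑ |a_n|²)^{1/2}` for all
finitely supported families of complex coefficients `(a_n)_{n ∈ Λ}`. -/
def Subgaussian {m : ℕ} [NeZero m] (Λ : Set (Dual m)) : Prop :=
  ∃ C : ℝ, ∀ (A : Finset (Dual m)) (a : Dual m → ℂ), (A : Set (Dual m)) ⊆ Λ →
    psi2 m (fun t => ∑ n ∈ A, a n * chr m n t) ≤ C * Real.sqrt (∑ n ∈ A, ‖a n‖ ^ 2)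

/-- `Λ` is quasi-independent: a relation `∑_{n ∈ A} ξ_n n = 0` with `A ⊆ Λ` finite and
`ξ_n ∈ {-1, 0, 1}` is trivial. -/
def QuasiIndependent {m : ℕ} (Λ : Set (Dual m)) : Prop :=
  ∀ A : Finset (Dual m), (A : Set (Dual m)) ⊆ Λ → ∀ ξ : Dual m → ℤ,
    (∀ n ∈ A, ξ n = -1 ∨ ξ n = 0 ∨ ξ n = 1) → ∑ n ∈ A, ξ n • n = 0 → ∀ n ∈ A, ξ n = 0

theorem chr_eq (m : ℕ) [NeZero m] (n : Dual m) (t : G m) :
    chr m n t = ZMod.stdAddChar (n.sum fun k x => t k * x) := by
  have h1 : (n.sum fun k x => t k * x) =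
      (((∑ k ∈ n.support, (t k).val * (n k).val : ℕ) : ℤ) : ZMod m) := by
    unfold Finsupp.sum
    push_cast
    apply Finset.sum_congr rfl
    intro k _
    rw [ZMod.natCast_zmod_val, ZMod.natCast_zmod_val]
  rw [h1, ZMod.stdAddChar_coe]
  unfold chr
  congr 2

theorem pairing (m : ℕ) [NeZero m] : Pool.Agent.N245.SG.Pairing (chr m) where
  zero t := by simp [chr_eq]
  add a b t := by
    rw [chr_eq, chr_eq, chr_eq, Finsupp.sum_add_index' (by simp) (by intros; ring),
      AddChar.map_add_eq_mul]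
  addr n s t := by
    rw [chr_eq, chr_eq, chr_eq, ← AddChar.map_add_eq_mul]
    congr 1
    unfold Finsupp.sum
    rw [← Finset.sum_add_distrib]
    apply Finset.sum_congr rfl
    intro k _
    show (s k + t k) * n k = s k * n k + t k * n k
    ring
  norm n t := by
    rw [chr_eq]
    exact AddChar.norm_apply _ _
  meas n := by
    have h1 : chr m n = fun t => ZMod.stdAddChar (∑ k ∈ n.support, t k * n k) := by
      funext t
      exact chr_eq m n t
    rw [h1]
    refine (measurable_of_finite _).comp ?_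
    refine Finset.measurable_sum _ fun k _ => ?_
    exact (measurable_of_finite (fun x : ZMod m => x * n k)).comp (measurable_pi_apply k)
  sep n hn := by
    obtain ⟨k, hk⟩ : ∃ k, n k ≠ 0 := by
      by_contra hcon
      push Not at hcon
      exact hn (Finsupp.ext hcon)
    refine ⟨Pi.single k 1, ?_⟩
    rw [chr_eq]
    have h1 : (n.sum fun j x => (Pi.single k (1 : ZMod m) : G m) j * x) = n k := by
      unfold Finsupp.sum
      rw [Finset.sum_eq_single k]
      · simp
      · intro j _ hj
        simp [Pi.single_eq_of_ne hj]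
      · intro h
        simp [Finsupp.notMem_support_iff.1 h]
    rw [h1]
    intro h2
    apply hk
    apply ZMod.injective_stdAddChar
    rw [h2, AddChar.map_zero_eq_one]

/-- For every `m ≥ 1` (in particular for `m = 4`), a set `Λ` of nonzero elements of the dual of
`(ℤ/mℤ)^ℕ` is subgaussian if and only if it is a finite union of quasi-independent sets. -/
theorem result (m : ℕ) [NeZero m] (Λ : Set (Dual m)) (h0 : (0 : Dual m) ∉ Λ) :
    Subgaussian Λ ↔
      ∃ (k : ℕ) (Q : Fin k → Set (Dual m)), (∀ i, QuasiIndependent (Q i)) ∧ Λ = ⋃ i, Q i := by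
  classical
  have hprob : IsProbabilityMeasure (haar m) := by
    constructor
    have := Measure.addHaarMeasure_self (K₀ := (⊤ : TopologicalSpace.PositiveCompacts (G m)))
    exact this
  have hinv : (haar m).IsAddLeftInvariant := by
    unfold haar
    infer_instance
  have h1 := Pool.Agent.N245.SG.iff_abs (haar m) (pairing m) m (NeZero.pos m) Λ
    (fun n _ => by
      ext k
      rw [Finsupp.smul_apply, Finsupp.zero_apply, nsmul_eq_mul, ZMod.natCast_self, zero_mul]) h0
  exact h1

end Pool.Agent.Results.MP_080bf7_an.SubgaussianUnion
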